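import Pool.Agent.Helper42.PQ.Base
import Pool.Agent.Helper42.PQ.Spec

/-! # PQ/MP: all divisions are connected (helper94) -/

set_option autoImplicit false

open Finset

namespace Pool.Agent.Helper94.PQ.MP

open Pool.Agent.Helper42.PQ

section

variable {α β : Type} [Fintype α] [DecidableEq β]

lemma ty_sum (N : ℕ) (x : α → ℕ) (ρ : α → β) (a : β) :
    (ty N x ρ a).sum = ∑ v ∈ univ.filter (fun v => ρ v = a), x v % N := rfl

lemma ty_mod {N : ℕ} {x : α → ℕ} {ρ : α → β} (h : IsDv N x ρ) (a : β) :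
    N ∣ (ty N x ρ a).sum + 1 := by
  have h1 := h a
  rw [ty_sum]
  have h2 : ∑ v ∈ univ.filter (fun v => ρ v = a), x v % N ≡
      ∑ v ∈ univ.filter (fun v => ρ v = a), x v [MOD N] := by
    refine (Nat.ModEq.symm ?_)
    unfold Nat.ModEq
    exact Finset.sum_nat_mod _ _ _
  have h3 := (h2.add_right 1)
  exact (Nat.modEq_zero_iff_dvd).1 (h3.trans ((Nat.modEq_zero_iff_dvd).2 h1))

lemma ty_ge {N : ℕ} {x : α → ℕ} {ρ : α → β} (h : IsDv N x ρ) (a : β) :
    N ≤ (ty N x ρ a).sum + 1 := Nat.le_of_dvd (Nat.succ_pos _) (ty_mod h a)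

variable [Fintype β]

lemma ty_total (N : ℕ) (x : α → ℕ) (ρ : α → β) :
    ∑ a, (ty N x ρ a).sum = ∑ v, x v % N := by
  simp_rw [ty_sum]
  exact Finset.sum_fiberwise univ ρ fun v => x v % N

lemma mod_le (N : ℕ) (x : α → ℕ) : ∑ v, x v % N ≤ ∑ v, x v :=
  Finset.sum_le_sum fun v _ => Nat.mod_le _ _

/-- the sum over all classes -/
lemma total_ge {N : ℕ} {x : α → ℕ} {ρ : α → β} (h : IsDv N x ρ) :
    N * Fintype.card β ≤ ∑ v, x v + Fintype.card β := by
  have h1 : ∑ _a : β, N ≤ ∑ a : β, ((ty N x ρ a).sum + 1) := Finset.sum_le_sum fun a _ => ty_ge h a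
  rw [Finset.sum_add_distrib, ty_total] at h1
  simp only [Finset.sum_const, Finset.card_univ, smul_eq_mul, mul_one] at h1
  have h2 := mod_le N x
  calc N * Fintype.card β = Fintype.card β * N := mul_comm _ _
    _ ≤ _ := by omega

/-- one class -/
lemma single_le [DecidableEq α] {N : ℕ} {x : α → ℕ} {ρ : α → β} (h : IsDv N x ρ) (a : β) :
    (ty N x ρ a).sum + (Fintype.card β - 1) * N ≤ ∑ v, x v + (Fintype.card β - 1) := by
  have h1 : ∑ _b ∈ univ.erase a, N ≤ ∑ b ∈ univ.erase a, ((ty N x ρ b).sum + 1) :=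
    Finset.sum_le_sum fun a _ => ty_ge h a
  rw [Finset.sum_add_distrib] at h1
  simp only [Finset.sum_const, smul_eq_mul, mul_one, Finset.card_erase_of_mem (Finset.mem_univ a),
    Finset.card_univ] at h1
  have h2 := Finset.add_sum_erase univ (fun b => (ty N x ρ b).sum) (Finset.mem_univ a)
  rw [ty_total] at h2
  have h3 := mod_le N x
  omega

/-- two classes -/
lemma pair_le [DecidableEq α] {N : ℕ} {x : α → ℕ} {ρ : α → β} (h : IsDv N x ρ) (a b : β)
    (hab : a ≠ b) :
    (ty N x ρ a).sum + (ty N x ρ b).sum + (Fintype.card β - 2) * N ≤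
      ∑ v, x v + (Fintype.card β - 2) := by
  have hb : b ∈ univ.erase a := Finset.mem_erase.2 ⟨hab.symm, Finset.mem_univ b⟩
  have h1 : ∑ _c ∈ (univ.erase a).erase b, N ≤ ∑ c ∈ (univ.erase a).erase b,
      ((ty N x ρ c).sum + 1) := Finset.sum_le_sum fun a _ => ty_ge h a
  rw [Finset.sum_add_distrib] at h1
  simp only [Finset.sum_const, smul_eq_mul, mul_one, Finset.card_erase_of_mem hb,
    Finset.card_erase_of_mem (Finset.mem_univ a), Finset.card_univ] at h1
  have h2 := Finset.add_sum_erase univ (fun b => (ty N x ρ b).sum) (Finset.mem_univ a)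
  have h4 := Finset.add_sum_erase (univ.erase a) (fun b => (ty N x ρ b).sum) hb
  rw [ty_total] at h2
  have h3 := mod_le N x
  have h5 : Fintype.card β - 1 - 1 = Fintype.card β - 2 := by omega
  rw [h5] at h1
  omega

/-- two classes, trivial bound -/
lemma pair_le' (N : ℕ) (x : α → ℕ) (ρ : α → β) (a b : β) (hab : a ≠ b) :
    (ty N x ρ a).sum + (ty N x ρ b).sum ≤ ∑ v, x v % N := by
  have hb : b ∈ univ.erase a := Finset.mem_erase.2 ⟨hab.symm, Finset.mem_univ b⟩
  have h2 := Finset.add_sum_erase univ (fun b => (ty N x ρ b).sum) (Finset.mem_univ a)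
  have h4 := Finset.add_sum_erase (univ.erase a) (fun b => (ty N x ρ b).sum) hb
  rw [ty_total] at h2
  omega

end

theorem main (h1 : S_M1) (h2 : S_M2) (h3 : S_M3) (h8 : S_M8) (e10 : S_E10) (e11 : S_E11)
    (h9 : S_M9) : S_MP := by
  intro N K hNK
  have hN : 2 ≤ N := by
    rcases hNK with h | h | h <;> omega
  suffices H : ∀ n, MIH N K n by
    intro α β _ _ _ _ x ρ κ hρ hκ hs
    exact H (Fintype.card α + 1) α β x ρ κ (Nat.lt_succ_self _) hρ hκ hs
  intro n
  induction n with
  | zero =>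
    intro α β _ _ _ _ x ρ κ h
    exact absurd h (Nat.not_lt_zero _)
  | succ n ih =>
    intro α β _ _ _ _ x ρ κ hα hρ hκ hs
    rcases Nat.lt_or_ge (Fintype.card α) n with hlt | hge
    · exact ih α β x ρ κ hlt hρ hκ hs
    have hcard : Fintype.card α = n := by omega
    rw [← hcard] at ih
    by_contra hnot
    have hbad : BadP N x ρ κ := ⟨hρ, hκ, hnot⟩
    -- at least three classes
    have hβ : 3 ≤ Fintype.card β := by
      by_contra hlt
      push Not at hlt
      apply hnot
      rcases isEmpty_or_nonempty β with hE | ⟨⟨c⟩⟩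
      · have : ρ = κ := funext fun v => (hE.false (ρ v)).elim
        rw [this]
        exact Relation.EqvGen.refl _
      · obtain ⟨a, b, hab⟩ : ∃ a b : β, ∀ c : β, c = a ∨ c = b := by
          by_contra hcon
          push Not at hcon
          obtain ⟨d, hd1, _⟩ := hcon c c
          obtain ⟨e, he1, he2⟩ := hcon c d
          have hc3 : ({c, d, e} : Finset β).card = 3 := by
            rw [Finset.card_insert_of_notMem, Finset.card_pair he2.symm]
            simp only [Finset.mem_insert, Finset.mem_singleton, not_or]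
            exact ⟨fun h => hd1 h.symm, fun h => he1 h.symm⟩
          have := Finset.card_le_univ ({c, d, e} : Finset β)
          omega
        refine Relation.EqvGen.rel _ _ ⟨hρ, hκ, a, b, fun v _ => ⟨fun h1 h2 => ?_, fun _ => hab _⟩⟩
        rcases hab (ρ v) with h | h
        · exact absurd h h1
        · exact absurd h h2
    -- the properties of bad pairs
    have hO : OrtF N x (BadP (α := α) (β := β) N x) := by
      refine ⟨h2 N K α β x ρ κ hN ih hs hbad, by omega, ?_⟩
      intro ρ κ hb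
      refine ⟨hb.1, hb.2.1, fun v w hvw hr hk => h1 N K α β x ρ κ hN ih hs hb v w hvw hr hk,
        h3 N K α β x ρ κ hN ih hs hb, ⟨hb.2.1, hb.1, fun h => hb.2.2 (Relation.EqvGen.symm _ _ h)⟩,
        fun ρ' hst => ⟨hst.2.1, hb.2.1, fun h => hb.2.2
          (Relation.EqvGen.trans _ _ _ (Relation.EqvGen.rel _ _ hst) h)⟩⟩
    have hne : Nonempty α := by
      by_contra hE
      rw [not_nonempty_iff] at hE
      haveI := hE
      obtain ⟨c⟩ : Nonempty β := Fintype.card_pos_iff.1 (by omega)
      have := hρ c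
      rw [Finset.univ_eq_empty, Finset.filter_empty, Finset.sum_empty, zero_add] at this
      have := Nat.le_of_dvd Nat.one_pos this
      omega
    obtain ⟨v0⟩ := hne
    have hmem : ∀ ρ κ : α → β, (x v0 % N, ty N x ρ (ρ v0), ty N x κ (κ v0)) ∈ cells N x ρ κ :=
      fun ρ κ => ⟨v0, rfl⟩
    rcases hNK with hN10 | hN11 | hN12
    · have hF := h8 N (∑ v, x v % N) α β x (BadP N x) hN hO
        (fun ρ κ _ a b hab => pair_le' N x ρ a b hab)
      have hE := e10 N _ hN hN10.2 _ hF (cells N x ρ κ) ⟨ρ, κ, hbad, rfl⟩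
      have := hmem ρ κ
      rw [hE] at this
      exact this
    · obtain ⟨rfl, hK⟩ := hN11
      rcases Nat.lt_or_ge (Fintype.card β) 4 with hb4 | hb4
      · have hb3 : Fintype.card β = 3 := by omega
        exact h9 11 5 (Or.inl ⟨rfl, rfl⟩) α β x (BadP 11 x) hO hb3
          (by rw [hb3] at hs; omega) ρ κ hbad
      · have hs' : ∑ v, x v + Fintype.card β ≤ 55 := by omega
        have hF := h8 11 31 α β x (BadP 11 x) (by norm_num) hO
          (fun ρ κ hb a b hab => by
            have := pair_le hb.1 a b hab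
            omega)
        have hE := e11 _ hF (by
          rintro C ⟨ρ', κ', hb, rfl⟩ a τ γ ⟨v, hv⟩
          have e1 := (Prod.mk.inj hv).2
          obtain ⟨e2, e3⟩ := Prod.mk.inj e1
          have f1 := single_le hb.1 (ρ' v)
          have f2 := single_le hb.2.1 (κ' v)
          rw [← e2] at f1
          rw [← e3] at f2
          omega) (cells 11 x ρ κ) ⟨ρ, κ, hbad, rfl⟩
        have := hmem ρ κ
        rw [hE] at this
        exact this
    · obtain ⟨rfl, hK⟩ := hN12
      have ht := total_ge hρ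
      have hb3 : Fintype.card β = 3 := by omega
      exact h9 12 3 (Or.inr ⟨rfl, rfl⟩) α β x (BadP 12 x) hO hb3
        (by rw [hb3] at hs; omega) ρ κ hbad

end Pool.Agent.Helper94.PQ.MP
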